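import Pool.Agent.H7.KR.Stmts

/-!
# Few cliques avoid a part (row AMS of the board `kr`)
-/

set_option autoImplicit false

open Finset

namespace Pool.KR

open Pool.Agent.H23.KT Pool.Agent.H46.KW Pool.KQ

lemma ams_pair {V : Type} [DecidableEq V] (G : SimpleGraph V) (p : ℕ) (W : Finset V) (z y : V)
    (hzy : y ≠ z) :
    ((clq G W (p + 3)).filter (fun L => z ∈ L ∧ y ∈ L)).card ≤ W.card ^ (p + 1) := by
  have h1 : ((clq G W (p + 3)).filter (fun L => z ∈ L ∧ y ∈ L)).card ≤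
      (W.powersetCard (p + 1)).card := by
    apply card_le_card_of_injOn (fun L => (L.erase z).erase y)
    · intro L hL
      rw [mem_coe, mem_filter] at hL
      obtain ⟨hL, hz, hy⟩ := hL
      obtain ⟨h2, h3, -⟩ := (mem_clq G).1 hL
      rw [mem_coe, mem_powersetCard]
      refine ⟨((erase_subset _ _).trans (erase_subset _ _)).trans h2, ?_⟩
      rw [card_erase_of_mem (mem_erase.2 ⟨hzy, hy⟩), card_erase_of_mem hz, h3]
      omega
    · intro L hL L' hL' h
      rw [mem_coe, mem_filter] at hL hL'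
      obtain ⟨-, hz, hy⟩ := hL
      obtain ⟨-, hz', hy'⟩ := hL'
      have h4 : (L.erase z).erase y = (L'.erase z).erase y := h
      rw [← insert_erase hz, ← insert_erase hz', ← insert_erase (mem_erase.2 ⟨hzy, hy⟩), h4,
        insert_erase (mem_erase.2 ⟨hzy, hy'⟩)]
  rw [card_powersetCard] at h1
  exact h1.trans (Nat.choose_le_pow _ _)

lemma ams_cover {V : Type} [DecidableEq V] {G : SimpleGraph V} {p a : ℕ} {e C : ℝ} {W : Finset V}
    {P : Fin (p + 3) → Finset V} {U : Finset V} (hS : Str G p a e C W P U)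
    (ι : V → Fin (p + 3)) (i : Fin (p + 3)) :
    (clq G W (p + 3)).filter (fun L => Disjoint L (P i ∪ U.filter (fun z => ι z = i))) ⊆
      U.biUnion (fun z => ((nb G (P (ι z)) z ∪ U).erase z).biUnion
        (fun y => (clq G W (p + 3)).filter (fun L => z ∈ L ∧ y ∈ L))) := by
  intro L hL
  rw [mem_filter] at hL
  obtain ⟨hL, hd⟩ := hL
  obtain ⟨hLW, hLc, hLq⟩ := (mem_clq G).1 hL
  have hex : ∀ x, ∃ k, x ∈ L → k ≠ i ∧ ((x ∈ U ∧ ι x = k) ∨ x ∈ P k) := by
    intro x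
    by_cases hx : x ∈ L
    · have hd' := disjoint_left.1 hd hx
      rw [mem_union, mem_filter] at hd'
      rcases (hS.cov x).1 (hLW hx) with h | ⟨k, hk⟩
      · refine ⟨ι x, fun _ => ⟨fun h' => hd' (Or.inr ⟨h, h'⟩), Or.inl ⟨h, rfl⟩⟩⟩
      · refine ⟨k, fun _ => ⟨fun h' => hd' (Or.inl (h' ▸ hk)), Or.inr hk⟩⟩
    · exact ⟨i, fun h => absurd h hx⟩
  choose f hf using hex
  obtain ⟨x, hx, y, hy, hxy, hfxy⟩ := exists_ne_map_eq_of_card_lt_of_maps_to
    (s := L) (t := (univ : Finset (Fin (p + 3))).erase i) (f := f) (by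
      rw [card_erase_of_mem (mem_univ _), card_univ, Fintype.card_fin, hLc]
      omega) (fun x hx => by
      rw [mem_coe, mem_erase]
      exact ⟨(hf x hx).1, mem_univ _⟩)
  have hadj : G.Adj x y := hLq hx hy hxy
  have main : ∀ z ∈ L, ∀ w ∈ L, w ≠ z → G.Adj z w → f z = f w → z ∈ U → ι z = f z →
      L ∈ U.biUnion (fun z => ((nb G (P (ι z)) z ∪ U).erase z).biUnion
        (fun y => (clq G W (p + 3)).filter (fun L => z ∈ L ∧ y ∈ L))) := by
    intro z hz w hw hwz hzw hfw hzU hιz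
    rw [mem_biUnion]
    refine ⟨z, hzU, ?_⟩
    rw [mem_biUnion]
    refine ⟨w, ?_, ?_⟩
    · rw [mem_erase, mem_union]
      refine ⟨hwz, ?_⟩
      rcases (hf w hw).2 with h | h
      · exact Or.inr h.1
      · left
        rw [mem_nb]
        refine ⟨?_, hzw⟩
        rw [hιz, hfw]
        exact h
    · rw [mem_filter]
      exact ⟨hL, hz, hw⟩
  rcases (hf x hx).2 with h | h
  · exact main x hx y hy hxy.symm hadj hfxy h.1 h.2
  · rcases (hf y hy).2 with h' | h'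
    · exact main y hy x hx hxy hadj.symm hfxy.symm h'.1 h'.2
    · exact absurd hadj (hS.par.ind (f x) x h y (hfxy ▸ h'))

/-- (AMS) Few cliques avoid a part. -/
theorem ams : AMSStmt := by
  intro p C ε hC hε
  have hQ0 : (0 : ℝ) < (2 * ((p : ℝ) + 3)) ^ (p + 1) := by positivity
  set Q : ℝ := (2 * ((p : ℝ) + 3)) ^ (p + 1) with hQ
  refine ⟨ε / (2 * C * Q), by positivity, max 1 ⌈2 * C ^ 2 * Q / ε⌉₊, ?_⟩
  intro a ha V _ G e W P U hS hW ι hι i
  have ha1 : 1 ≤ a := le_trans (le_max_left _ _) ha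
  have ha2 : 2 * C ^ 2 * Q / ε ≤ a :=
    le_trans (Nat.le_ceil _) (by exact_mod_cast le_trans (le_max_right _ _) ha)
  have haR : (1 : ℝ) ≤ a := by exact_mod_cast ha1
  have hUC := hS.cU
  -- the number of cliques
  have h1 : (((clq G W (p + 3)).filter
      (fun L => Disjoint L (P i ∪ U.filter (fun z => ι z = i)))).card : ℝ) ≤
      ∑ z ∈ U, ∑ y ∈ (nb G (P (ι z)) z ∪ U).erase z, ((W.card : ℝ) ^ (p + 1)) := by
    have h2 := (card_le_card (ams_cover hS ι i)).trans card_biUnion_le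
    have h3 : ∑ z ∈ U, (((nb G (P (ι z)) z ∪ U).erase z).biUnion
        (fun y => (clq G W (p + 3)).filter (fun L => z ∈ L ∧ y ∈ L))).card ≤
        ∑ z ∈ U, ∑ y ∈ (nb G (P (ι z)) z ∪ U).erase z, W.card ^ (p + 1) := by
      apply sum_le_sum
      intro z _
      refine card_biUnion_le.trans (sum_le_sum ?_)
      intro y hy
      exact ams_pair G p W z y (mem_erase.1 hy).1
    exact_mod_cast h2.trans h3
  have hW2 : (W.card : ℝ) ^ (p + 1) ≤ Q * (a : ℝ) ^ (p + 1) := by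
    rw [hQ, ← mul_pow]
    apply pow_le_pow_left₀ (Nat.cast_nonneg _)
    have h4 : (W.card : ℝ) ≤ ((p : ℝ) + 3) * a + (p + 2) := by exact_mod_cast hW
    nlinarith [(Nat.cast_nonneg p : (0 : ℝ) ≤ p)]
  have h5 : ∀ z ∈ U, ∑ y ∈ (nb G (P (ι z)) z ∪ U).erase z, ((W.card : ℝ) ^ (p + 1)) ≤
      (ε / (2 * C * Q) * a + C) * (Q * (a : ℝ) ^ (p + 1)) := by
    intro z hz
    rw [sum_const, nsmul_eq_mul]
    have h6 : ((((nb G (P (ι z)) z ∪ U).erase z).card : ℕ) : ℝ) ≤ ε / (2 * C * Q) * a + C := by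
      have h7 : ((nb G (P (ι z)) z ∪ U).erase z).card ≤ (nb G (P (ι z)) z).card + U.card :=
        (card_le_card (erase_subset _ _)).trans (card_union_le _ _)
      have h8 : ((((nb G (P (ι z)) z ∪ U).erase z).card : ℕ) : ℝ) ≤
          ((nb G (P (ι z)) z).card : ℝ) + U.card := by exact_mod_cast h7
      linarith [hι z hz]
    exact mul_le_mul h6 hW2 (by positivity) (by positivity)
  have h9 := sum_le_sum h5
  rw [sum_const, nsmul_eq_mul] at h9
  have h10 : (U.card : ℝ) * ((ε / (2 * C * Q) * a + C) * (Q * (a : ℝ) ^ (p + 1))) ≤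
      C * ((ε / (2 * C * Q) * a + C) * (Q * (a : ℝ) ^ (p + 1))) :=
    mul_le_mul_of_nonneg_right hUC (by positivity)
  have h11 : C * ((ε / (2 * C * Q) * a + C) * (Q * (a : ℝ) ^ (p + 1))) =
      ε / 2 * (a : ℝ) ^ (p + 2) + C ^ 2 * Q * (a : ℝ) ^ (p + 1) := by
    field_simp
    ring
  have h12 : C ^ 2 * Q ≤ ε / 2 * a := by
    rw [div_le_iff₀ hε] at ha2
    linarith
  have h13 : C ^ 2 * Q * (a : ℝ) ^ (p + 1) ≤ ε / 2 * (a : ℝ) ^ (p + 2) := by
    calc C ^ 2 * Q * (a : ℝ) ^ (p + 1) ≤ (ε / 2 * a) * (a : ℝ) ^ (p + 1) :=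
          mul_le_mul_of_nonneg_right h12 (by positivity)
      _ = ε / 2 * (a : ℝ) ^ (p + 2) := by ring
  linarith

end Pool.KR
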